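import Pool.Agent.Helper70.Isg.Goals2

/-!
# MP_600500_pr, packet MONPSI
-/

noncomputable section

namespace Pool.Agent.Helper51.Isg

open Pool.Agent.Helper70.Isg

variable {d : ℕ}

theorem glue_coe (S : Finset (Site d)) (τ : S → Bool) (η : Cfg d) (a : S) :
    glue S τ η (a : Site d) = τ a := by
  simp [glue]

theorem energy_eq (β : ℝ) (S : Finset (Site d)) (τ : S → Bool) :
    β * ∑ a ∈ S, ∑ b ∈ (nbrs a).filter (· ∈ S),
        1 / 2 * (sg (glue S τ allT a) * sg (glue S τ allT b)) = gE (latJ β S) 0 τ := by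
  have h1 : ∀ a : Site d, ∑ b ∈ (nbrs a).filter (· ∈ S),
      1 / 2 * (sg (glue S τ allT a) * sg (glue S τ allT b)) =
      ∑ b : S, if (b : Site d) ∈ nbrs a then
        1 / 2 * (sg (glue S τ allT a) * sg (glue S τ allT b)) else 0 := by
    intro a
    have h2 : (nbrs a).filter (· ∈ S) = S.filter (· ∈ nbrs a) := by
      ext x
      simp only [Finset.mem_filter]
      tauto
    rw [h2, Finset.sum_filter]
    exact (Finset.sum_coe_sort S (fun b => if b ∈ nbrs a then
        1 / 2 * (sg (glue S τ allT a) * sg (glue S τ allT b)) else 0)).symm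
  simp only [h1]
  rw [← Finset.sum_coe_sort S (fun a => ∑ b : S, if (b : Site d) ∈ nbrs a then
        1 / 2 * (sg (glue S τ allT a) * sg (glue S τ allT b)) else 0)]
  unfold gE latJ
  simp only [Pi.zero_apply, zero_mul, Finset.sum_const_zero, add_zero, Finset.mul_sum]
  refine Finset.sum_congr rfl fun a _ => Finset.sum_congr rfl fun b _ => ?_
  rw [glue_coe, glue_coe]
  split_ifs
  · ring
  · ring

theorem frc_eq (β : ℝ) (S : Finset (Site d)) (o u : Site d) (ho : o ∈ S) (hu : u ∈ S) :
    frc β S o u =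
      gav (latJ β S) 0 (fun σ => sg (σ ⟨o, ho⟩) * sg (σ ⟨u, hu⟩)) := by
  unfold frc gav
  simp only [energy_eq]
  have h1 : ∀ τ : S → Bool, glue S τ allT o = τ ⟨o, ho⟩ := fun τ => glue_coe S τ allT ⟨o, ho⟩
  have h2 : ∀ τ : S → Bool, glue S τ allT u = τ ⟨u, hu⟩ := fun τ => glue_coe S τ allT ⟨u, hu⟩
  simp only [h1, h2]

theorem sg_not (b : Bool) : sg (!b) = - sg b := by
  cases b <;> simp [sg]

theorem sg_sq (b : Bool) : sg b * sg b = 1 := by
  cases b <;> simp [sg]

theorem gav_zero_nonneg {V : Type} [Fintype V] [DecidableEq V] (o u : V) :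
    0 ≤ gav (0 : V → V → ℝ) 0 (fun σ => sg (σ o) * sg (σ u)) := by
  unfold gav
  refine div_nonneg ?_ (Finset.sum_nonneg fun σ _ => (Real.exp_pos _).le)
  have h0 : ∀ σ : V → Bool, gE (0 : V → V → ℝ) 0 σ = 0 := by
    intro σ
    simp [gE]
  simp only [h0, Real.exp_zero, mul_one]
  by_cases h : o = u
  · subst h
    exact Finset.sum_nonneg fun σ _ => mul_self_nonneg _
  · have hinv : Function.Involutive (fun σ : V → Bool => Function.update σ o (!(σ o))) := by
      intro σ
      funext v
      by_cases hv : v = o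
      · subst hv
        simp
      · simp [Function.update_of_ne hv]
    have h1 := Equiv.sum_comp (Function.Involutive.toPerm _ hinv) (fun σ : V → Bool => sg (σ o) * sg (σ u))
    have h2 : ∀ σ : V → Bool, (fun σ : V → Bool => sg (σ o) * sg (σ u)) ((Function.Involutive.toPerm _ hinv) σ) =
        - (sg (σ o) * sg (σ u)) := by
      intro σ
      have hu : u ≠ o := fun hh => h hh.symm
      show sg (Function.update σ o (!(σ o)) o) * sg (Function.update σ o (!(σ o)) u) = _
      rw [Function.update_self, Function.update_of_ne hu, sg_not]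
      ring
    simp only [h2, Finset.sum_neg_distrib] at h1
    have h3 : ∑ σ : V → Bool, sg (σ o) * sg (σ u) = 0 := by linarith
    exact h3.ge

theorem latJ_nonneg {β : ℝ} (hβ : 0 ≤ β) (S : Finset (Site d)) (a b : S) :
    0 ≤ latJ β S a b := by
  unfold latJ
  split_ifs
  · positivity
  · exact le_rfl

theorem monpsi : S_BASIC → S_MONJ → S_MONPSI := by
  intro _ monj d β β' S o hβ hβ' ho
  have key : ∀ u ∈ S, frc β S o u ≤ frc β' S o u := by
    intro u hu
    rw [frc_eq β S o u ho hu, frc_eq β' S o u ho hu]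
    refine monj S (latJ β S) (latJ β' S) ⟨o, ho⟩ ⟨u, hu⟩ (latJ_nonneg hβ S) ?_
    intro a b
    unfold latJ
    split_ifs
    · linarith
    · exact le_rfl
  refine ⟨?_, ?_⟩
  · unfold psi
    exact Finset.sum_le_sum fun u hu => Finset.sum_le_sum fun _ _ => key u hu
  · intro u hu
    rw [frc_eq β S o u ho hu]
    exact (gav_zero_nonneg (V := S) ⟨o, ho⟩ ⟨u, hu⟩).trans
      (monj S 0 (latJ β S) ⟨o, ho⟩ ⟨u, hu⟩ (fun _ _ => le_rfl) (latJ_nonneg hβ S))

end Pool.Agent.Helper51.Isg
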